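import Pool.Agent.H629Z.Yao.Final

set_option autoImplicit false

open Filter Topology IsDedekindDomain Pool.Agent.H629Z.Yao

/-- Let `F` be the field with `q = p ^ k` elements, `v` a monic irreducible polynomial over `F`,
`𝔭 = (v)`, and `n` a `p`-adic integer with base-`q` digits `c j`.  The product of the
`(-D_{j,v}) ^ (c j)` converges in the `v`-adic completion of `F(t)`, and if its value is algebraic
over `F(t)` then the digits are ultimately periodic of period `deg v`. -/
theorem Pool.Agent.Results.MP_253687_nt.AYao.result :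
    ∀ (p k : ℕ) [Fact p.Prime] (F : Type) [Field F] [Fintype F], Fintype.card F = p ^ k →
    ∀ (v : Polynomial F), v.Monic → Irreducible v →
    ∀ (𝔭 : HeightOneSpectrum (Polynomial F)), 𝔭.asIdeal = Ideal.span {v} →
    ∀ (n : ℤ_[p]) (c : ℕ → ℕ), (∀ j, c j < p ^ k) →
      HasSum (fun j => (c j : ℤ_[p]) * ((p : ℤ_[p]) ^ k) ^ j) n →
    ∃ x : 𝔭.adicCompletion (RatFunc F),
      Tendsto (fun J => ∏ j ∈ Finset.range J,
        algebraMap (Polynomial F) (𝔭.adicCompletion (RatFunc F)) (-Dv v j) ^ c j) atTop (𝓝 x) ∧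
      (IsAlgebraic (RatFunc F) x → ∃ J, ∀ j, J ≤ j → c (j + v.natDegree) = c j) :=
  fun p k _ F _ _ hq v hv hi 𝔭 h𝔭 _ c hc _ => final p k F hq v hv hi 𝔭 h𝔭 c hc
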